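import Pool.Agent.Lib_helper52.LQ.Defs
import Pool.Agent.Lib_helper90.YG.T1

set_option autoImplicit false

namespace Pool.Agent.LQ

open MeasureTheory ENNReal Set Filter Topology Pool.Agent.EPS Pool.Agent.YG

variable {d : ℕ}

lemma r3_perm (α β γ : Measure (Eu d)) [IsProbabilityMeasure α] [IsProbabilityMeasure β]
    [IsProbabilityMeasure γ] :
    MeasurePreserving (fun p : Eu d × Eu d × Eu d => (p.2.1, (p.1, p.2.2)))
      (α.prod (β.prod γ)) (β.prod (α.prod γ)) := by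
  have h7 : MeasurePreserving MeasurableEquiv.prodAssoc.symm (α.prod (β.prod γ))
      ((α.prod β).prod γ) := (measurePreserving_prodAssoc α β γ).symm _
  have h8 : MeasurePreserving (Prod.map Prod.swap id) ((α.prod β).prod γ) ((β.prod α).prod γ) :=
    (Measure.measurePreserving_swap (μ := α) (ν := β)).prod (MeasurePreserving.id γ)
  have h9 : MeasurePreserving MeasurableEquiv.prodAssoc ((β.prod α).prod γ)
      (β.prod (α.prod γ)) := measurePreserving_prodAssoc β α γ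
  exact h9.comp (h8.comp h7)

lemma r3_int {X : Type*} [MeasurableSpace X] (μ : Measure X) [IsFiniteMeasure μ] (f : X → ℝ)
    (hf : Measurable f) (C : ℝ) (hC : ∀ x, |f x| ≤ C) : Integrable f μ :=
  Integrable.of_bound hf.aestronglyMeasurable C (Eventually.of_forall fun x => by
    rw [Real.norm_eq_abs]; exact hC x)

lemma r3_pair (β γ : Measure (Eu d)) [IsProbabilityMeasure β]
    [IsProbabilityMeasure γ] (k κ : Eu d → ℝ) (h : Rg β γ k κ) (g : Eu d → ℝ) (hg : Bm g) :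
    ∫ p : Eu d × Eu d, k p.2 * g (p.1 + p.2) ∂(β.prod γ) =
      ∫ p : Eu d × Eu d, κ (p.1 + p.2) * g (p.1 + p.2) ∂(β.prod γ) := by
  rw [h.eq g hg]
  have hc := t1_conv β γ
  have hm : Measurable (fun u => κ u * g u) := h.meas.mul hg.1
  rw [← hc.map_eq, integral_map hc.measurable.aemeasurable hm.aestronglyMeasurable]

lemma r3_kap (β γ : Measure (Eu d)) (k κ : Eu d → ℝ) (hk : Bm k) (h : Rg β γ k κ) : Bm κ := by
  obtain ⟨C, hC⟩ := hk.2
  exact ⟨h.meas, C, h.bd C hC⟩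

theorem tri_u (α β γ : Measure (Eu d)) [IsProbabilityMeasure α] [IsProbabilityMeasure β]
    [IsProbabilityMeasure γ] (k κ : Eu d → ℝ) (hk : Bm k) (h : Rg α γ k κ)
    (F : Eu d × Eu d → ℝ) (hF : Measurable F) (C : ℝ) (hC : ∀ p, |F p| ≤ C) :
    ∫ p : Eu d × Eu d × Eu d, k p.2.2 * F (p.1 + p.2.2, p.2.1) ∂(α.prod (β.prod γ)) =
      ∫ p : Eu d × Eu d × Eu d, κ (p.1 + p.2.2) * F (p.1 + p.2.2, p.2.1)
        ∂(α.prod (β.prod γ)) := by
  obtain ⟨hkm, K, hK⟩ := hk
  obtain ⟨hκm, K', hK'⟩ := r3_kap α γ k κ ⟨hkm, K, hK⟩ h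
  have hp := r3_perm α β γ
  have hm1 : Measurable (fun q : Eu d × Eu d × Eu d => k q.2.2 * F (q.2.1 + q.2.2, q.1)) := by
    fun_prop
  have hm2 : Measurable (fun q : Eu d × Eu d × Eu d =>
      κ (q.2.1 + q.2.2) * F (q.2.1 + q.2.2, q.1)) := by
    fun_prop
  have e1 : ∫ p : Eu d × Eu d × Eu d, k p.2.2 * F (p.1 + p.2.2, p.2.1) ∂(α.prod (β.prod γ)) =
      ∫ q : Eu d × Eu d × Eu d, k q.2.2 * F (q.2.1 + q.2.2, q.1) ∂(β.prod (α.prod γ)) := by
    rw [← hp.map_eq, integral_map hp.measurable.aemeasurable hm1.aestronglyMeasurable]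
  have e2 : ∫ p : Eu d × Eu d × Eu d, κ (p.1 + p.2.2) * F (p.1 + p.2.2, p.2.1)
        ∂(α.prod (β.prod γ)) =
      ∫ q : Eu d × Eu d × Eu d, κ (q.2.1 + q.2.2) * F (q.2.1 + q.2.2, q.1)
        ∂(β.prod (α.prod γ)) := by
    rw [← hp.map_eq, integral_map hp.measurable.aemeasurable hm2.aestronglyMeasurable]
  have i1 := r3_int (β.prod (α.prod γ)) _ hm1 (K * C) (fun q => by
    rw [abs_mul]; exact mul_le_mul (hK _) (hC _) (abs_nonneg _) ((abs_nonneg _).trans (hK 0)))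
  have i2 := r3_int (β.prod (α.prod γ)) _ hm2 (K' * C) (fun q => by
    rw [abs_mul]; exact mul_le_mul (hK' _) (hC _) (abs_nonneg _) ((abs_nonneg _).trans (hK' 0)))
  rw [e1, e2, integral_prod _ i1, integral_prod _ i2]
  refine integral_congr_ae (Eventually.of_forall fun y => ?_)
  exact r3_pair α γ k κ h (fun u => F (u, y)) ⟨by fun_prop, C, fun x => hC _⟩

theorem tri_v (α β γ : Measure (Eu d)) [IsProbabilityMeasure α] [IsProbabilityMeasure β]
    [IsProbabilityMeasure γ] (k κ : Eu d → ℝ) (hk : Bm k) (h : Rg β γ k κ)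
    (F : Eu d × Eu d → ℝ) (hF : Measurable F) (C : ℝ) (hC : ∀ p, |F p| ≤ C) :
    ∫ p : Eu d × Eu d × Eu d, k p.2.2 * F (p.2.1 + p.2.2, p.1) ∂(α.prod (β.prod γ)) =
      ∫ p : Eu d × Eu d × Eu d, κ (p.2.1 + p.2.2) * F (p.2.1 + p.2.2, p.1)
        ∂(α.prod (β.prod γ)) := by
  obtain ⟨hkm, K, hK⟩ := hk
  obtain ⟨hκm, K', hK'⟩ := r3_kap β γ k κ ⟨hkm, K, hK⟩ h
  have hm1 : Measurable (fun q : Eu d × Eu d × Eu d => k q.2.2 * F (q.2.1 + q.2.2, q.1)) := by
    fun_prop
  have hm2 : Measurable (fun q : Eu d × Eu d × Eu d =>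
      κ (q.2.1 + q.2.2) * F (q.2.1 + q.2.2, q.1)) := by
    fun_prop
  have i1 := r3_int (α.prod (β.prod γ)) _ hm1 (K * C) (fun q => by
    rw [abs_mul]; exact mul_le_mul (hK _) (hC _) (abs_nonneg _) ((abs_nonneg _).trans (hK 0)))
  have i2 := r3_int (α.prod (β.prod γ)) _ hm2 (K' * C) (fun q => by
    rw [abs_mul]; exact mul_le_mul (hK' _) (hC _) (abs_nonneg _) ((abs_nonneg _).trans (hK' 0)))
  rw [integral_prod _ i1, integral_prod _ i2]
  refine integral_congr_ae (Eventually.of_forall fun x => ?_)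
  exact r3_pair β γ k κ h (fun u => F (u, x)) ⟨by fun_prop, C, fun x => hC _⟩

theorem tri_w (α β γ : Measure (Eu d)) [IsProbabilityMeasure α] [IsProbabilityMeasure β]
    [IsProbabilityMeasure γ] (h : Eu d → ℝ) (hh : Bm h) :
    ∫ p : Eu d × Eu d × Eu d, h (p.1 + p.2.1 + p.2.2) ∂(α.prod (β.prod γ)) =
      ∫ w, h w ∂((α.conv β).conv γ) ∧ (α.conv β).conv γ = (α.conv γ).conv β := by
  constructor
  · have hp := (laws α β γ).2.2.2.2.2.2
    rw [← hp.map_eq, integral_map hp.measurable.aemeasurable hh.1.aestronglyMeasurable]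
  · rw [Measure.conv_assoc, Measure.conv_comm β γ, Measure.conv_assoc]

theorem tri_wz (α β γ : Measure (Eu d)) [IsProbabilityMeasure α] [IsProbabilityMeasure β]
    [IsProbabilityMeasure γ] (k κ h : Eu d → ℝ) (hk : Bm k) (hκ : Rg (α.conv β) γ k κ)
    (hh : Bm h) :
    ∫ p : Eu d × Eu d × Eu d, k p.2.2 * h (p.1 + p.2.1 + p.2.2) ∂(α.prod (β.prod γ)) =
      ∫ w, κ w * h w ∂((α.conv β).conv γ) := by
  rw [← hκ.eq h hh]
  have h7 : MeasurePreserving MeasurableEquiv.prodAssoc.symm (α.prod (β.prod γ))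
      ((α.prod β).prod γ) := (measurePreserving_prodAssoc α β γ).symm _
  have h8 := (t1_conv α β).prod (MeasurePreserving.id γ)
  have hp := h8.comp h7
  have hm : Measurable (fun q : Eu d × Eu d => k q.2 * h (q.1 + q.2)) :=
    (hk.1.comp measurable_snd).mul (hh.1.comp (measurable_fst.add measurable_snd))
  rw [← hp.map_eq, integral_map hp.measurable.aemeasurable hm.aestronglyMeasurable]
  rfl

theorem tri_wy (α β γ : Measure (Eu d)) [IsProbabilityMeasure α] [IsProbabilityMeasure β]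
    [IsProbabilityMeasure γ] (l lam h : Eu d → ℝ) (hl : Bm l) (hlam : Rg (α.conv γ) β l lam)
    (hh : Bm h) :
    ∫ p : Eu d × Eu d × Eu d, l p.2.1 * h (p.1 + p.2.1 + p.2.2) ∂(α.prod (β.prod γ)) =
      ∫ w, lam w * h w ∂((α.conv γ).conv β) := by
  rw [← hlam.eq h hh]
  have h8 : MeasurePreserving (Prod.map id (fun p : Eu d × Eu d => p.1 + p.2))
      (β.prod (α.prod γ)) (β.prod (α.conv γ)) := (MeasurePreserving.id β).prod (t1_conv α γ)
  have h9 : MeasurePreserving Prod.swap (β.prod (α.conv γ)) ((α.conv γ).prod β) :=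
    Measure.measurePreserving_swap
  have hp := h9.comp (h8.comp (r3_perm α β γ))
  have hm : Measurable (fun q : Eu d × Eu d => l q.2 * h (q.1 + q.2)) :=
    (hl.1.comp measurable_snd).mul (hh.1.comp (measurable_fst.add measurable_snd))
  rw [← hp.map_eq, integral_map hp.measurable.aemeasurable hm.aestronglyMeasurable]
  refine integral_congr_ae (Eventually.of_forall fun p => ?_)
  show l p.2.1 * h (p.1 + p.2.1 + p.2.2) = l p.2.1 * h (p.1 + p.2.2 + p.2.1)
  rw [add_right_comm]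

end Pool.Agent.LQ
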