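import Pool.Agent.Lib_helper52.LQ.Defs

set_option autoImplicit false

namespace Pool.Agent.LQ

open MeasureTheory ENNReal Set Filter Topology Pool.Agent.EPS Pool.Agent.YG

variable {d : ℕ}

lemma lc_step (θ M e : ℝ) (h0 : 0 < θ) (h1 : θ < 1) (he : 0 ≤ e) (hM : 0 ≤ M) (μ : ℕ → ℝ)
    (hμ0 : ∀ i, 0 ≤ μ i) (hμa : ∀ i, μ i ≤ M)
    (hcs : ∀ i, μ (2 * i + 2) ^ 2 ≤ μ (2 * i + 1) * μ (2 * i + 3))
    (hB : ∀ i, μ (2 * i + 1) ≤ θ * μ (2 * i) + e) (i : ℕ) :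
    μ (2 * i + 2) ≤ θ ^ 2 * μ (2 * i) + Real.sqrt (2 * M * e + e ^ 2) := by
  by_contra hc
  push Not at hc
  set E := Real.sqrt (2 * M * e + e ^ 2) with hE
  have hE0 : 0 ≤ E := Real.sqrt_nonneg _
  have hE2 : E ^ 2 = 2 * M * e + e ^ 2 := Real.sq_sqrt (by positivity)
  set a := μ (2 * i) with ha
  set b := μ (2 * i + 2) with hb
  have ha0 : 0 ≤ a := hμ0 _
  have hb0 : 0 ≤ b := hμ0 _
  have haM : a ≤ M := hμa _
  have hbM : b ≤ M := hμa _
  have h2 := hB i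
  have h3 := hB (i + 1)
  rw [show 2 * (i + 1) + 1 = 2 * i + 3 by ring, show 2 * (i + 1) = 2 * i + 2 by ring] at h3
  have h4 : μ (2 * i + 1) * μ (2 * i + 3) ≤ (θ * a + e) * (θ * b + e) :=
    mul_le_mul h2 h3 (hμ0 _) (by positivity)
  have h5 := hcs i
  have h6 : (θ * a + e) * (θ * b + e) ≤ θ ^ 2 * a * b + E ^ 2 := by
    rw [hE2]
    have : θ * e * (a + b) ≤ 2 * M * e := by
      have e1 : θ * e ≤ e := by nlinarith
      have e2 : a + b ≤ 2 * M := by linarith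
      calc θ * e * (a + b) ≤ e * (2 * M) := mul_le_mul e1 e2 (by linarith) he
        _ = 2 * M * e := by ring
    nlinarith
  have h7 : θ ^ 2 * a * b + E ^ 2 < b ^ 2 := by
    have hbE : E < b := by nlinarith [mul_nonneg (sq_nonneg θ) ha0]
    have hbp : 0 < b := by linarith
    have : (θ ^ 2 * a + E) * b < b * b := mul_lt_mul_of_pos_right hc hbp
    nlinarith
  linarith

theorem l_alg (θ M e : ℝ) (h0 : 0 < θ) (h1 : θ < 1) (he : 0 ≤ e) (hM : 0 ≤ M) (μ t : ℕ → ℝ)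
    (hμ0 : ∀ i, 0 ≤ μ i) (hμ1 : ∀ i, μ (i + 1) ≤ μ i) (hμM : μ 0 ≤ M)
    (hcs : ∀ i, μ (2 * i + 2) ^ 2 ≤ μ (2 * i + 1) * μ (2 * i + 3))
    (ht : ∀ i, t i ≤ μ (2 * i) - 2 * μ (2 * i + 1) + μ (2 * i + 2))
    (hA : ∀ i, t i + (μ (2 * i + 1) - 2 * μ (2 * i + 2) + μ (2 * i + 3)) ≤
      θ * ((μ (2 * i) - 2 * μ (2 * i + 1) + μ (2 * i + 2)) +
        (t (i + 1) / θ ^ 2 +
          ((μ (2 * i + 1) - 2 / θ * μ (2 * i + 2) + μ (2 * i + 3) / θ ^ 2) -
          (μ (2 * i + 2) - 2 / θ * μ (2 * i + 3) + μ (2 * i + 4) / θ ^ 2)))) + e)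
    (hB : ∀ i, μ (2 * i + 1) ≤ θ * μ (2 * i) + e) (n : ℕ) :
    -(θ ^ n * M) - n * (θ ^ n)⁻¹ * (Real.sqrt (2 * M * e + e ^ 2) + e) ≤
      θ * μ 0 - (1 + θ) * μ 1 + μ 2 - t 0 := by
  have hμa : ∀ i, μ i ≤ M := fun i => by
    induction i with
    | zero => exact hμM
    | succ k ih => exact (hμ1 k).trans ih
  set E := Real.sqrt (2 * M * e + e ^ 2) with hE
  have hE0 : 0 ≤ E := Real.sqrt_nonneg _
  -- the defect
  set D : ℕ → ℝ := fun i => θ * μ (2 * i) - (1 + θ) * μ (2 * i + 1) + μ (2 * i + 2) - t i with hD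
  have hstep : ∀ i, D (i + 1) / θ - e ≤ D i := by
    intro i
    have h := hA i
    have e1 : 2 * (i + 1) = 2 * i + 2 := by ring
    have e2 : 2 * (i + 1) + 1 = 2 * i + 3 := by ring
    have e3 : 2 * (i + 1) + 2 = 2 * i + 4 := by ring
    simp only [hD, e1, e2, e3]
    have key : θ * ((μ (2 * i) - 2 * μ (2 * i + 1) + μ (2 * i + 2)) +
        (t (i + 1) / θ ^ 2 +
          ((μ (2 * i + 1) - 2 / θ * μ (2 * i + 2) + μ (2 * i + 3) / θ ^ 2) -
          (μ (2 * i + 2) - 2 / θ * μ (2 * i + 3) + μ (2 * i + 4) / θ ^ 2)))) =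
        θ * μ (2 * i) - θ * μ (2 * i + 1) - 2 * μ (2 * i + 2) + t (i + 1) / θ + μ (2 * i + 3) / θ
          + 2 * μ (2 * i + 3) - μ (2 * i + 4) / θ := by
      field_simp; ring
    rw [key] at h
    have key2 : (θ * μ (2 * i + 2) - (1 + θ) * μ (2 * i + 3) + μ (2 * i + 4) - t (i + 1)) / θ =
        μ (2 * i + 2) - μ (2 * i + 3) / θ - μ (2 * i + 3) + μ (2 * i + 4) / θ - t (i + 1) / θ := by
      field_simp; ring
    rw [key2]
    linarith
  have hDn : ∀ n : ℕ, (D n - n * e) * (θ ^ n)⁻¹ ≤ D 0 := by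
    intro n
    induction n with
    | zero => simp
    | succ k ih =>
      refine le_trans ?_ ih
      have hk := hstep k
      have hp : 0 < (θ ^ k)⁻¹ := by positivity
      rw [pow_succ, mul_inv, ← mul_assoc, mul_right_comm]
      refine mul_le_mul_of_nonneg_right ?_ hp.le
      have e1 : (D (k + 1) - ((k + 1 : ℕ) : ℝ) * e) * θ⁻¹ =
          D (k + 1) / θ - ((k : ℝ) + 1) * (e / θ) := by
        push_cast; field_simp
      rw [e1]
      have e2 : e ≤ e / θ := by rw [le_div_iff₀ h0]; nlinarith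
      have e3 : ((k : ℝ) + 1) * e ≤ ((k : ℝ) + 1) * (e / θ) :=
        mul_le_mul_of_nonneg_left e2 (by positivity)
      nlinarith
  have hlow : -μ (2 * n) ≤ D n := by
    simp only [hD]
    have h := ht n
    have h2 := hμ0 (2 * n + 1)
    have h3 := hμ0 (2 * n)
    nlinarith
  have hup : ∀ n : ℕ, μ (2 * n) ≤ θ ^ (2 * n) * M + n * E := by
    intro n
    induction n with
    | zero => simpa using hμM
    | succ k ih =>
      have h := lc_step θ M e h0 h1 he hM μ hμ0 hμa hcs hB k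
      rw [show 2 * (k + 1) = 2 * k + 2 by ring]
      refine h.trans ?_
      have e1 : θ ^ 2 * μ (2 * k) ≤ θ ^ 2 * (θ ^ (2 * k) * M + k * E) :=
        mul_le_mul_of_nonneg_left ih (by positivity)
      have e2 : θ ^ 2 * ((k : ℝ) * E) ≤ (k : ℝ) * E := by
        have : θ ^ 2 ≤ 1 := by nlinarith
        have hk : 0 ≤ (k : ℝ) * E := by positivity
        nlinarith
      push_cast
      rw [pow_add, ← hE]
      nlinarith
  have hfin := hDn n
  have hD0 : D 0 = θ * μ 0 - (1 + θ) * μ 1 + μ 2 - t 0 := by simp [hD]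
  rw [hD0] at hfin
  refine le_trans ?_ hfin
  have hp : 0 < (θ ^ n)⁻¹ := by positivity
  have h8 : (-(θ ^ (2 * n) * M + n * E) - n * e) * (θ ^ n)⁻¹ ≤ (D n - n * e) * (θ ^ n)⁻¹ := by
    refine mul_le_mul_of_nonneg_right ?_ hp.le
    have := hup n
    linarith
  refine le_trans (le_of_eq ?_) h8
  have hθ : θ ^ n ≠ 0 := by positivity
  rw [show 2 * n = n + n by ring, pow_add]
  field_simp
  ring

end Pool.Agent.LQ
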