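import Pool.Agent.Lib_helper52.LQ.Defs
import Pool.Agent.Lib_helper23.EPS.F3

set_option autoImplicit false

namespace Pool.Agent.LQ

open MeasureTheory ENNReal Set Filter Topology Pool.Agent.EPS Pool.Agent.YG

variable {d : ℕ}

lemma u1_ac (M : NNReal) (μ : Measure (Eu d))
    (h : μ ≤ (M : ℝ≥0∞) • (volume : Measure (Eu d))) : μ ≪ volume :=
  (Measure.absolutelyContinuous_of_le h).trans (Measure.smul_absolutelyContinuous)

lemma u1_le (M : NNReal) (μ : Measure (Eu d)) [IsProbabilityMeasure μ]
    (h : μ ≤ (M : ℝ≥0∞) • (volume : Measure (Eu d))) :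
    ∀ᵐ x ∂(volume : Measure (Eu d)), (μ.rnDeriv volume x).toReal ≤ M := by
  have hac := u1_ac M μ h
  have h1 : μ.rnDeriv volume ≤ᵐ[volume] fun _ => (M : ℝ≥0∞) := by
    refine ae_le_of_forall_setLIntegral_le_of_sigmaFinite (Measure.measurable_rnDeriv _ _) ?_
    intro s hs _
    rw [Measure.setLIntegral_rnDeriv hac, setLIntegral_const]
    have := h s
    simpa [Measure.smul_apply, smul_eq_mul] using this
  filter_upwards [h1] with x hx
  have := ENNReal.toReal_mono (by simp) hx
  simpa using this

lemma u1_zero (R : ℝ) (μ : Measure (Eu d)) [IsProbabilityMeasure μ] (hac : μ ≪ volume)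
    (h : ∀ᵐ x ∂μ, ‖x‖ ≤ R) :
    ∀ᵐ x ∂(volume : Measure (Eu d)), x ∉ Metric.closedBall (0 : Eu d) R →
      (μ.rnDeriv volume x).toReal = 0 := by
  have hs : MeasurableSet (Metric.closedBall (0 : Eu d) R)ᶜ :=
    Metric.isClosed_closedBall.measurableSet.compl
  have h1 : μ (Metric.closedBall (0 : Eu d) R)ᶜ = 0 := by
    rw [ae_iff] at h
    refine measure_mono_null ?_ h
    intro x hx
    simpa using hx
  have h2 : ∫⁻ x in (Metric.closedBall (0 : Eu d) R)ᶜ, μ.rnDeriv volume x = 0 := by
    rw [Measure.setLIntegral_rnDeriv hac, h1]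
  rw [setLIntegral_eq_zero_iff hs (Measure.measurable_rnDeriv _ _)] at h2
  filter_upwards [h2] with x hx hx2
  rw [hx hx2]; simp

lemma u1_int (μ : Measure (Eu d)) [IsProbabilityMeasure μ] :
    Integrable (fun x => (μ.rnDeriv volume x).toReal) volume :=
  Measure.integrable_toReal_rnDeriv

/-- continuity of the entropy for densities bounded by `M` on a fixed ball: `negMulLog` is uniformly
continuous on `[0, M]`; `∫ |φ(p) - φ(q)| ≤ ω vol + 2 C (∫ |p - q|) / r`. -/
theorem ent_cont (M : NNReal) (R δ : ℝ) (hδ : 0 < δ) : ∃ r > 0, ∀ μ ν : Measure (Eu d),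
    IsProbabilityMeasure μ → IsProbabilityMeasure ν →
    μ ≤ (M : ℝ≥0∞) • (volume : Measure (Eu d)) → ν ≤ (M : ℝ≥0∞) • (volume : Measure (Eu d)) →
    (∀ᵐ x ∂μ, ‖x‖ ≤ R) → (∀ᵐ x ∂ν, ‖x‖ ≤ R) →
    (∫ x, |(dn μ x).toReal - (dn ν x).toReal| ≤ r) → |ent μ - ent ν| ≤ δ := by
  classical
  set B : Set (Eu d) := Metric.closedBall (0 : Eu d) R with hB
  have hBm : MeasurableSet B := Metric.isClosed_closedBall.measurableSet
  have hBf : volume B ≠ ∞ := (Metric.isBounded_closedBall.measure_lt_top).ne
  set V : ℝ := (volume B).toReal with hV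
  have hV0 : 0 ≤ V := ENNReal.toReal_nonneg
  -- uniform continuity
  have hcomp : IsCompact (Icc (0 : ℝ) M) := isCompact_Icc
  have huc : UniformContinuousOn Real.negMulLog (Icc (0 : ℝ) M) :=
    hcomp.uniformContinuousOn_of_continuous Real.continuous_negMulLog.continuousOn
  obtain ⟨C, hC⟩ := hcomp.exists_bound_of_continuousOn Real.continuous_negMulLog.continuousOn
  set C' : ℝ := max C 1 with hC'
  have hC'0 : 0 < C' := lt_of_lt_of_le one_pos (le_max_right _ _)
  have hCb : ∀ s ∈ Icc (0 : ℝ) M, |Real.negMulLog s| ≤ C' := fun s hs => by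
    have := hC s hs
    rw [Real.norm_eq_abs] at this
    exact this.trans (le_max_left _ _)
  set η : ℝ := δ / (2 * (V + 1)) with hη
  have hη0 : 0 < η := by positivity
  obtain ⟨ρ, hρ0, hρ⟩ := Metric.uniformContinuousOn_iff.mp huc η hη0
  refine ⟨δ * ρ / (4 * C'), by positivity, ?_⟩
  intro μ ν hμ hν hμM hνM hμR hνR hint
  set f : Eu d → ℝ := fun x => (μ.rnDeriv volume x).toReal with hf
  set g : Eu d → ℝ := fun x => (ν.rnDeriv volume x).toReal with hg
  have hacμ := u1_ac M μ hμM
  have hacν := u1_ac M ν hνM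
  have hf1 := u1_le M μ hμM
  have hg1 := u1_le M ν hνM
  have hf2 := u1_zero R μ hacμ hμR
  have hg2 := u1_zero R ν hacν hνR
  have hfm : Measurable f := (Measure.measurable_rnDeriv _ _).ennreal_toReal
  have hgm : Measurable g := (Measure.measurable_rnDeriv _ _).ennreal_toReal
  have hfi : Integrable f volume := u1_int μ
  have hgi : Integrable g volume := u1_int ν
  have hindi : Integrable (B.indicator (fun _ => C')) volume :=
    (integrable_indicator_iff hBm).mpr (integrableOn_const hBf)
  have hφf : Integrable (fun x => Real.negMulLog (f x)) volume := by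
    refine Integrable.mono' hindi
      (Real.continuous_negMulLog.measurable.comp hfm).aestronglyMeasurable ?_
    filter_upwards [hf1, hf2] with x h1 h2
    by_cases hx : x ∈ B
    · rw [indicator_of_mem hx, Real.norm_eq_abs]
      exact hCb _ ⟨ENNReal.toReal_nonneg, h1⟩
    · rw [indicator_of_notMem hx]
      have : f x = 0 := h2 hx
      rw [this, Real.negMulLog_zero, norm_zero]
  have hφg : Integrable (fun x => Real.negMulLog (g x)) volume := by
    refine Integrable.mono' hindi
      (Real.continuous_negMulLog.measurable.comp hgm).aestronglyMeasurable ?_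
    filter_upwards [hg1, hg2] with x h1 h2
    by_cases hx : x ∈ B
    · rw [indicator_of_mem hx, Real.norm_eq_abs]
      exact hCb _ ⟨ENNReal.toReal_nonneg, h1⟩
    · rw [indicator_of_notMem hx]
      have : g x = 0 := h2 hx
      rw [this, Real.negMulLog_zero, norm_zero]
  have hindη : Integrable (B.indicator (fun _ => η)) volume :=
    (integrable_indicator_iff hBm).mpr (integrableOn_const hBf)
  have hfg : Integrable (fun x => |f x - g x|) volume := (hfi.sub hgi).abs
  have e1 : ent μ - ent ν = ∫ x, (Real.negMulLog (f x) - Real.negMulLog (g x)) := by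
    rw [integral_sub hφf hφg]; rfl
  have hpt : ∀ᵐ x ∂(volume : Measure (Eu d)),
      |Real.negMulLog (f x) - Real.negMulLog (g x)| ≤
        B.indicator (fun _ => η) x + (2 * C' / ρ) * |f x - g x| := by
    filter_upwards [hf1, hf2, hg1, hg2] with x h1 h2 h3 h4
    by_cases hx : x ∈ B
    · rw [indicator_of_mem hx]
      have m1 : f x ∈ Icc (0 : ℝ) M := ⟨ENNReal.toReal_nonneg, h1⟩
      have m2 : g x ∈ Icc (0 : ℝ) M := ⟨ENNReal.toReal_nonneg, h3⟩
      by_cases hd : |f x - g x| < ρ
      · have := hρ (f x) m1 (g x) m2 (by rw [Real.dist_eq]; exact hd)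
        rw [Real.dist_eq] at this
        have h5 : 0 ≤ (2 * C' / ρ) * |f x - g x| := by positivity
        linarith
      · push Not at hd
        have h5 : 2 * C' ≤ (2 * C' / ρ) * |f x - g x| := by
          rw [div_mul_eq_mul_div, le_div_iff₀ hρ0]
          exact mul_le_mul_of_nonneg_left hd (by positivity)
        have h6 : |Real.negMulLog (f x) - Real.negMulLog (g x)| ≤ 2 * C' := by
          refine (abs_sub _ _).trans ?_
          have := hCb _ m1
          have := hCb _ m2
          linarith
        linarith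
    · rw [indicator_of_notMem hx]
      have z1 : f x = 0 := h2 hx
      have z2 : g x = 0 := h4 hx
      rw [z1, z2]; simp
  rw [e1]
  calc |∫ x, (Real.negMulLog (f x) - Real.negMulLog (g x))|
      ≤ ∫ x, |Real.negMulLog (f x) - Real.negMulLog (g x)| := abs_integral_le_integral_abs
    _ ≤ ∫ x, (B.indicator (fun _ => η) x + (2 * C' / ρ) * |f x - g x|) :=
        integral_mono_ae (hφf.sub hφg).abs (hindη.add (hfg.const_mul _)) hpt
    _ = η * V + (2 * C' / ρ) * ∫ x, |f x - g x| := by
        rw [integral_add hindη (hfg.const_mul _), integral_const_mul,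
          integral_indicator_const _ hBm]
        congr 1
        rw [smul_eq_mul, mul_comm]; rfl
    _ ≤ δ / 2 + δ / 2 := by
        have h1 : η * V ≤ δ / 2 := by
          rw [hη, div_mul_eq_mul_div, div_le_div_iff₀ (by positivity) (by norm_num)]
          nlinarith
        have h2 : (2 * C' / ρ) * ∫ x, |f x - g x| ≤ δ / 2 := by
          have h3 : ∫ x, |f x - g x| ≤ δ * ρ / (4 * C') := hint
          calc (2 * C' / ρ) * ∫ x, |f x - g x| ≤ (2 * C' / ρ) * (δ * ρ / (4 * C')) :=
                mul_le_mul_of_nonneg_left h3 (by positivity)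
            _ = δ / 2 := by field_simp; ring
        linarith
    _ = δ := by ring

end Pool.Agent.LQ
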